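import Pool.Agent.P.MP_636dfe_co.Cap.Top

set_option autoImplicit false

namespace Pool.Agent.Results.MP_636dfe_co.CapRate

theorem result : ∃ c : ℝ, 0 < c ∧ ∀ k : ℕ, ∃ B : Finset (Fin k → ZMod 3),
    (∀ a b : Fin k → ZMod 3, b ≠ 0 → ∃ t : ZMod 3, a + t • b ∈ B) ∧
    (B.card : ℝ) ≤ 3 ^ k - c * (2.2212 : ℝ) ^ k := by
  have h := Pool.Agent.P.MP_636dfe_co.Cap.cap_bound
  have e : (((22212 : ℕ) : ℝ) / (10000 : ℕ)) = 2.2212 := by norm_num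
  rw [e] at h
  exact h

end Pool.Agent.Results.MP_636dfe_co.CapRate
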