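import Pool.Agent.P.MP_636dfe_co.Lin2

set_option autoImplicit false

namespace Pool.Agent.Results.MP_636dfe_co.LinearSets

open Pool.Agent.P.MP_636dfe_co

theorem result (K F : Type) [Field K] [Fintype K] [Field F] [Fintype F] [Algebra K F]
    (h : ℕ) (hh : Module.finrank K F = h) (h2 : 2 ≤ h) (h4 : h ≤ 4) (j i : ℕ) :
    ∃ B : Finset (Fin ((2 * h - 1) * j + i) → F),
      (∀ a b : Fin ((2 * h - 1) * j + i) → F, b ≠ 0 → ∃ t : F, a + t • b ∈ B) ∧
      (B.card : ℝ) ≤ ((h : ℝ) * Fintype.card K / (Fintype.card K - 1) * j + i)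
        * (Fintype.card F : ℝ) ^ ((2 * h - 1) * j + i) / Fintype.card F :=
  blk_iter (blk_linear K F h hh h2 h4) j i

end Pool.Agent.Results.MP_636dfe_co.LinearSets
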