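import Pool.Agent.P.MP_636dfe_co.Quad

set_option autoImplicit false

namespace Pool.Agent.Results.MP_636dfe_co.QuadraticResidue

open Pool.Agent.P.MP_636dfe_co

theorem result (F : Type) [Field F] [Fintype F] (hF : Fintype.card F % 4 = 3) :
    ∃ B : Finset (Fin 3 → F), (∀ a b : Fin 3 → F, b ≠ 0 → ∃ t : F, a + t • b ∈ B) ∧
      4 * B.card + 9 * Fintype.card F ≤ 11 * Fintype.card F ^ 2 := by
  classical
  obtain ⟨B, h1, h2⟩ := (blk_three (F := F) hF).of_finrank (k := 3) (by simp)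
  refine ⟨B, h1, ?_⟩
  have : (4 : ℝ) * B.card + 9 * Fintype.card F ≤ 11 * (Fintype.card F : ℝ) ^ 2 := by linarith
  exact_mod_cast this

end Pool.Agent.Results.MP_636dfe_co.QuadraticResidue
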