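import Pool.Agent.P.MP_636dfe_co.Hit

set_option autoImplicit false

namespace Pool.Agent.Results.MP_636dfe_co.SqrtLog

theorem result (F : Type) [Field F] [Fintype F] (s t k : ℕ) (hs : 1 ≤ s)
    (hk : 2 * k ≤ t * (t + 1)) (hq : (2 * s * t) ^ s * t ≤ Fintype.card F ^ s) :
    ∃ B : Finset (Fin k → F), (∀ a b : Fin k → F, b ≠ 0 → ∃ τ : F, a + τ • b ∈ B) ∧
      (B.card : ℝ) ≤ 5 * (s + 1) * (2 * t + 1) * Real.log (Fintype.card F)
        * (Fintype.card F : ℝ) ^ k / Fintype.card F :=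
  Pool.Agent.P.MP_636dfe_co.blk_sqrt s t k hs hk hq

end Pool.Agent.Results.MP_636dfe_co.SqrtLog
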